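import Pool.Agent.KS6_41.QC.W4

/-!
# Weak `(1, ∞)`-Poincaré inequality and quasiconvexity of Euclidean domains, in every dimension

The exact answer to Q1 of MP_dc21ba_an, dimension by dimension: a domain in `ℝⁿ` which supports a weak
`(1, ∞)`-Poincaré inequality and is not quasiconvex exists if and only if `n ≥ 2`. The domains are products
`Ω₀ × ℝᵏ`, where `Ω₀` is the thin plane corridor `x < 0`, `f(x) < y < f(x) + w(x)` of the earlier plane
counterexample. As the measure is not doubling, the product needs an argument: the mass of a ball of the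
corridor is concentrated near one end of the ball, near the boundary of the ball, where the `k`-dimensional
sections of the balls of the product are small.
-/

set_option autoImplicit false

namespace Pool.Agent.Results.MP_dc21ba_an.AllDimensions

open Set MeasureTheory Metric
open scoped ENNReal NNReal

/-- `g` is an upper gradient of `u` in `Ω`: `|u(γ(a)) - u(γ(b))| ≤ ∫_γ g ds` for all Lipschitz curves
`γ : [a, b] → Ω`, where `∫_γ g ds = ∫_a^b g(γ(t)) |γ'(t)| dt`. (Every rectifiable curve has a Lipschitz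
parametrisation, by arc length.) -/
def IsUpperGradient {n : ℕ} (Ω : Set (EuclideanSpace ℝ (Fin n))) (u : EuclideanSpace ℝ (Fin n) → ℝ)
    (g : EuclideanSpace ℝ (Fin n) → ℝ≥0∞) : Prop :=
  ∀ (γ : ℝ → EuclideanSpace ℝ (Fin n)) (a b : ℝ) (K : ℝ≥0), a ≤ b →
    LipschitzOnWith K γ (Icc a b) → (∀ t ∈ Icc a b, γ t ∈ Ω) →
      ‖u (γ a) - u (γ b)‖ₑ ≤ ∫⁻ t in Icc a b, g (γ t) * ‖deriv γ t‖ₑ

/-- The weak `(1, ∞)`-Poincaré inequality for `Ω`: there are constants `C > 0` and `lam ≥ 1` such that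
`∫_B |u - u_B| ≤ C r ‖g‖_{L^∞(lam B)} |B|` for all balls `B = B(x, r) ∩ Ω`, `x ∈ Ω`, all `u ∈ L¹_loc(Ω)`
and all Borel upper gradients `g` of `u`. -/
def WeakPoincare {n : ℕ} (Ω : Set (EuclideanSpace ℝ (Fin n))) : Prop :=
  ∃ C : ℝ, 0 < C ∧ ∃ lam : ℝ, 1 ≤ lam ∧ ∀ x ∈ Ω, ∀ r : ℝ, 0 < r →
    ∀ u : EuclideanSpace ℝ (Fin n) → ℝ, LocallyIntegrableOn u Ω →
      ∀ g : EuclideanSpace ℝ (Fin n) → ℝ≥0∞, Measurable g → IsUpperGradient Ω u g →
        ∫⁻ y in ball x r ∩ Ω, ‖u y - ⨍ z in ball x r ∩ Ω, u z‖ₑ ≤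
          ENNReal.ofReal (C * r) * essSup g (volume.restrict (ball x (lam * r) ∩ Ω)) *
            volume (ball x r ∩ Ω)

/-- `Ω` is quasiconvex: any two of its points `x`, `y` are joined by a curve in `Ω` of length at most
`K |x - y|`, `K` independent of the points. -/
def Quasiconvex {n : ℕ} (Ω : Set (EuclideanSpace ℝ (Fin n))) : Prop :=
  ∃ K : ℝ, ∀ x ∈ Ω, ∀ y ∈ Ω, ∃ γ : ℝ → EuclideanSpace ℝ (Fin n), ContinuousOn γ (Icc 0 1) ∧
    γ 0 = x ∧ γ 1 = y ∧ (∀ t ∈ Icc (0 : ℝ) 1, γ t ∈ Ω) ∧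
      eVariationOn γ (Icc 0 1) ≤ ENNReal.ofReal (K * dist x y)

open Pool.Agent.KS6_41.QC Module in
/-- orthogonal coordinates on `ℝ^(k+2)` -/
theorem exists_emb (k : ℕ) : ∃ (Ψ : (ℝ × ℝ) × EuclideanSpace ℝ (Fin k) ≃ᵐ EuclideanSpace ℝ (Fin (k + 2)))
    (A : E2 × EuclideanSpace ℝ (Fin k) →L[ℝ] EuclideanSpace ℝ (Fin (k + 2))), Emb Ψ A := by
  have hfin : finrank ℝ (WithLp 2 (E2 × EuclideanSpace ℝ (Fin k))) = k + 2 := by
    rw [(WithLp.linearEquiv 2 ℝ (E2 × EuclideanSpace ℝ (Fin k))).finrank_eq, finrank_prod,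
      finrank_euclideanSpace_fin, finrank_euclideanSpace_fin, add_comm]
  let b : OrthonormalBasis (Fin (k + 2)) ℝ (WithLp 2 (E2 × EuclideanSpace ℝ (Fin k))) :=
    (stdOrthonormalBasis ℝ _).reindex (finCongr hfin)
  refine ⟨(ptE.prodCongr (MeasurableEquiv.refl _)).trans
    ((MeasurableEquiv.toLp 2 (E2 × EuclideanSpace ℝ (Fin k))).trans b.repr.toMeasurableEquiv),
    (b.repr.toContinuousLinearEquiv : WithLp 2 (E2 × EuclideanSpace ℝ (Fin k)) →L[ℝ]
      EuclideanSpace ℝ (Fin (k + 2))).comp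
      ((WithLp.prodContinuousLinearEquiv 2 ℝ E2 (EuclideanSpace ℝ (Fin k))).symm :
        E2 × EuclideanSpace ℝ (Fin k) →L[ℝ] WithLp 2 (E2 × EuclideanSpace ℝ (Fin k))), ?_, ?_, ?_⟩
  · have h1 : MeasurePreserving (ptE.prodCongr (MeasurableEquiv.refl (EuclideanSpace ℝ (Fin k)))) :=
      ptE_mp.prod (MeasurePreserving.id _)
    exact h1.trans ((WithLp.volume_preserving_toLp _ _).trans b.measurePreserving_repr)
  · intro X
    rfl
  · intro v w
    show ‖b.repr (WithLp.toLp 2 (v, w))‖ ^ 2 = _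
    rw [LinearIsometryEquiv.norm_map, WithLp.prod_norm_sq_eq_of_L2]
    rfl

/-- In dimension at most one connected sets are quasiconvex. -/
theorem small_dim {n : ℕ} (hn : n < 2) (Ω : Set (EuclideanSpace ℝ (Fin n))) (hΩ : IsConnected Ω) :
    Quasiconvex Ω := by
  refine ⟨1, fun x hx y hy => ?_⟩
  have hl : LipschitzWith (nndist x y) (AffineMap.lineMap x y : ℝ → EuclideanSpace ℝ (Fin n)) :=
    lipschitzWith_lineMap x y
  refine ⟨AffineMap.lineMap x y, hl.continuous.continuousOn, AffineMap.lineMap_apply_zero _ _,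
    AffineMap.lineMap_apply_one _ _, fun t ht => ?_, ?_⟩
  · rcases Nat.lt_or_ge n 1 with h | h
    · have : n = 0 := by omega
      subst this
      rwa [Subsingleton.elim (AffineMap.lineMap x y t) x]
    · have : n = 1 := by omega
      subst this
      have hc : Continuous fun z : EuclideanSpace ℝ (Fin 1) => z 0 := by fun_prop
      have h1 := (hΩ.isPreconnected.image _ hc.continuousOn).ordConnected
      have h2 : (AffineMap.lineMap x y t : EuclideanSpace ℝ (Fin 1)) 0 ∈ uIcc (x 0) (y 0) := by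
        have e : (AffineMap.lineMap x y t : EuclideanSpace ℝ (Fin 1)) 0 =
            AffineMap.lineMap (x 0) (y 0) t := by
          simp [AffineMap.lineMap_apply]
        rw [e, ← segment_eq_uIcc, segment_eq_image_lineMap]
        exact ⟨t, ht, rfl⟩
      obtain ⟨w, hw, hwe⟩ := h1.uIcc_subset ⟨x, hx, rfl⟩ ⟨y, hy, rfl⟩ h2
      have : w = AffineMap.lineMap x y t := by
        ext i
        rw [Subsingleton.elim i 0]
        exact hwe
      rwa [← this]
  · have h1 := (hl.lipschitzOnWith (s := univ)).comp_eVariationOn_le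
      (g := (id : ℝ → ℝ)) (s := Icc (0 : ℝ) 1) (mapsTo_univ _ _)
    have h2 : eVariationOn (id : ℝ → ℝ) (Icc (0 : ℝ) 1) ≤ ENNReal.ofReal (1 - 0) := by
      have := (monotoneOn_id (s := Icc (0 : ℝ) 1)).eVariationOn_eq (a := 0) (b := 1)
        ⟨le_rfl, zero_le_one⟩ ⟨zero_le_one, le_rfl⟩
      rw [inter_self] at this
      exact this.le
    calc eVariationOn (AffineMap.lineMap x y : ℝ → EuclideanSpace ℝ (Fin n)) (Icc 0 1)
        ≤ (nndist x y : ℝ≥0∞) * eVariationOn (id : ℝ → ℝ) (Icc (0 : ℝ) 1) := h1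
      _ ≤ (nndist x y : ℝ≥0∞) * ENNReal.ofReal (1 - 0) := by gcongr
      _ = ENNReal.ofReal (1 * dist x y) := by
          rw [sub_zero, ENNReal.ofReal_one, mul_one, one_mul, ← coe_nndist, ENNReal.ofReal_coe_nnreal]

/-- **The answer in every dimension.** There is a domain in `ℝⁿ` which supports a weak
`(1, ∞)`-Poincaré inequality and is not quasiconvex if and only if `n ≥ 2`. -/
theorem result (n : ℕ) :
    (∃ Ω : Set (EuclideanSpace ℝ (Fin n)), IsOpen Ω ∧ IsConnected Ω ∧ WeakPoincare Ω ∧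
      ¬ Quasiconvex Ω) ↔ 2 ≤ n := by
  constructor
  · rintro ⟨Ω, -, hc, -, hq⟩
    by_contra h
    exact hq (small_dim (by omega) Ω hc)
  · intro h
    obtain ⟨k, rfl⟩ := Nat.exists_eq_add_of_le' h
    obtain ⟨Ψ, A, hE⟩ := exists_emb k
    refine ⟨Pool.Agent.KS6_41.QC.OmE Ψ, hE.isOpen, hE.isConnected,
      ⟨_, Pool.Agent.KS6_41.QC.Cst_pos _, 6, by norm_num, fun x hx r hr u hu g hg hug =>
        hE.pi_main hx hr u hu g hg hug⟩, ?_⟩
    rintro ⟨K, hK⟩
    exact hE.not_quasiconvex K hK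

end Pool.Agent.Results.MP_dc21ba_an.AllDimensions
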